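import Pool.Agent.N206.CG.Af

/-!
Project CG: normalisers of the affine groups.
-/

set_option autoImplicit false

namespace Pool.Agent.N499.CG

open Pool.Agent.N206.CG Pool.Agent.N206.CG.Af

section

variable {R : Type} [CommRing R]

theorem tr_apply (t x : EE R) : tr t x = t + x := rfl

theorem tr_mem (t : EE R) : tr t ∈ PP R := ⟨_, rfl⟩

theorem pow_t (t : EE R) (n : ℕ) : ((⟨1, t⟩ : Aff R) ^ n) = ⟨1, n • t⟩ := by
  induction n with
  | zero => rw [pow_zero, zero_smul]; rfl
  | succ n ih =>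
    rw [pow_succ, ih]
    apply Aff.ext
    · exact one_mul _
    · change n • t + pa ((1 : A5) : Equiv.Perm (Fin 5)) t = (n + 1) • t
      rw [succ_nsmul]
      rfl

theorem pow_a (g : Aff R) (n : ℕ) : (g ^ n).a = g.a ^ n := by
  induction n with
  | zero => rfl
  | succ n ih => rw [pow_succ, pow_succ, mul_a, ih]

end

/-- inverse permutations -/
theorem inv_self {α : Type} (e : Equiv.Perm α) (x : α) : e⁻¹ (e x) = x := e.symm_apply_apply x

/-- integers with small difference which are equal modulo `p` -/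
theorem cast_inj {p : ℕ} (hp : 1000 ≤ p) {a b : ℤ} (ha : |a| < 500) (hb : |b| < 500)
    (h : (a : ZMod p) = (b : ZMod p)) : a = b := by
  rw [ZMod.intCast_eq_intCast_iff_dvd_sub] at h
  have h1 : |b - a| < p := by
    have h2 := abs_sub b a
    have h3 : (1000 : ℤ) ≤ p := by exact_mod_cast hp
    calc |b - a| ≤ |b| + |a| := by
          have := abs_add_le b (-a)
          rw [abs_neg] at this
          rwa [← sub_eq_add_neg] at this
      _ < p := by linarith
  have h4 := Int.eq_zero_of_abs_lt_dvd h h1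
  linarith

/-- the vector with distinct coordinates -/
def u0 : Fin 5 → ℤ := ![1, 2, 3, 4, -10]

/-- the vector in `EE` -/
def x0 (R : Type) [CommRing R] : EE R :=
  ⟨fun _ i => ((u0 i : ℤ) : R), by
    intro k
    have h : ∑ i, u0 i = 0 := by decide
    have h2 := congrArg (fun z : ℤ => (z : R)) h
    simp only [Int.cast_sum, Int.cast_zero] at h2
    exact h2⟩

theorem act_inj {p : ℕ} (hp : 1000 ≤ p) {g : Aff (ZMod p)} (h : act g = 1) : g = 1 := by
  have h1 : ∀ x, g.t + pa g.a x = x := fun x => by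
    rw [← act_apply, h]
    rfl
  have ht : g.t = 0 := by
    have h2 := h1 0
    rw [pa_zero, add_zero] at h2
    exact h2
  have ha : g.a = 1 := by
    have h2 := h1 (x0 (ZMod p))
    rw [ht, zero_add] at h2
    have h3 : ∀ i, ((g.a : Equiv.Perm (Fin 5))⁻¹) i = i := by
      intro i
      have h4 : (pa g.a (x0 (ZMod p))).1 0 i = (x0 (ZMod p)).1 0 i := by rw [h2]
      rw [pa_apply] at h4
      have h5 : ∀ j : Fin 5, |u0 j| < 500 := by decide
      have h6 : ∀ i j : Fin 5, u0 i = u0 j → i = j := by decide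
      exact h6 _ _ (cast_inj hp (h5 _) (h5 _) h4)
    apply Subtype.ext
    have h4 : (g.a : Equiv.Perm (Fin 5))⁻¹ = 1 := Equiv.ext h3
    rw [inv_eq_one] at h4
    exact h4
  exact Aff.ext ha ht

/-- F2a -/
theorem t_F2a : S_F2a := by
  intro p hp hp1 s hs hs0 x y
  have : Fact p.Prime := ⟨hp⟩
  obtain ⟨g, hg⟩ := (hs (tr x)).1 (tr_mem x)
  have hpx : (tr x) ^ p = 1 := by
    unfold tr
    rw [← map_pow, pow_t]
    have h1 : p • x = 0 := by
      apply Subtype.ext
      funext k i
      change (p • x.1) k i = 0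
      rw [Pi.smul_apply, Pi.smul_apply, nsmul_eq_mul, CharP.cast_eq_zero, zero_mul]
    rw [h1]
    exact map_one _
  have hgp : g ^ p = 1 := by
    apply act_inj hp1
    rw [map_pow, hg, conj_pow, hpx, mul_one, mul_inv_cancel]
  have ha : g.a = 1 := by
    have h1 : g.a ^ p = 1 := by
      rw [← pow_a, hgp]
      rfl
    have h2 : (g.a : Equiv.Perm (Fin 5)) ^ p = 1 := by
      rw [← Subgroup.coe_pow, h1]
      rfl
    have h3 := orderOf_dvd_of_pow_eq_one h2
    have h4 := orderOf_dvd_card (x := (g.a : Equiv.Perm (Fin 5)))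
    rw [Fintype.card_perm, Fintype.card_fin] at h4
    have h5 : Nat.Coprime p (Nat.factorial 5) := by
      rw [Nat.Prime.coprime_iff_not_dvd hp]
      intro h6
      have h7 := Nat.le_of_dvd (Nat.factorial_pos 5) h6
      have h8 : Nat.factorial 5 = 120 := rfl
      omega
    have h6 := Nat.dvd_gcd h3 h4
    rw [h5.gcd_eq_one, Nat.dvd_one, orderOf_eq_one_iff] at h6
    exact Subtype.ext h6
  have key : ∀ z, s (x + s⁻¹ z) = g.t + z := by
    intro z
    have h1 : act g z = (s * tr x * s⁻¹) z := by rw [hg]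
    rw [act_apply, ha] at h1
    exact h1.symm
  have k1 := key (s y)
  rw [inv_self] at k1
  have k2 := key (s 0)
  rw [inv_self, hs0, add_zero, add_zero] at k2
  rw [k1, k2]

/-- F3 -/
theorem t_F3 : S_F3 := by
  intro p hp hp1 s hs
  have : Fact p.Prime := ⟨hp⟩
  have h1 : ∀ t, s t = t + s 0 := by
    intro t
    have h2 := congrArg (fun f : Equiv.Perm (EE (ZMod p)) => f 0) (hs (tr t) (tr_mem t))
    simp only [Equiv.Perm.mul_apply] at h2
    rw [tr_apply, tr_apply, add_zero] at h2
    exact h2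
  have h2 : ∀ (a : A5) (k : Fin 2) (i : Fin 5),
      (s 0).1 k ((a : Equiv.Perm (Fin 5))⁻¹ i) = (s 0).1 k i := by
    intro a k i
    have h3 := congrArg (fun f : Equiv.Perm (EE (ZMod p)) => f 0)
      (hs (act ⟨a, 0⟩) ⟨_, rfl⟩)
    simp only [Equiv.Perm.mul_apply] at h3
    rw [act_apply, act_apply] at h3
    simp only [pa_zero, zero_add] at h3
    rw [← pa_apply, ← h3]
  have h3 : ∀ (k : Fin 2) (i : Fin 5), (s 0).1 k (finRotate 5 i) = (s 0).1 k i := by
    intro k i
    have hc : finRotate 5 ∈ alternatingGroup (Fin 5) := by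
      rw [Equiv.Perm.mem_alternatingGroup, sign_finRotate]
      rfl
    have h4 := h2 ⟨finRotate 5, hc⟩ k (finRotate 5 i)
    simp only [inv_self] at h4
    exact h4.symm
  have h5 : (5 : ZMod p) ≠ 0 := by
    intro h
    have h6 : ((5 : ℕ) : ZMod p) = 0 := by exact_mod_cast h
    rw [ZMod.natCast_eq_zero_iff] at h6
    have := Nat.le_of_dvd (by norm_num) h6
    omega
  have h0 : s 0 = 0 := by
    have hk : ∀ k : Fin 2, (s 0).1 k 0 = 0 := by
      intro k
      have e1 : (s 0).1 k 1 = (s 0).1 k 0 := h3 k 0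
      have e2 : (s 0).1 k 2 = (s 0).1 k 1 := h3 k 1
      have e3 : (s 0).1 k 3 = (s 0).1 k 2 := h3 k 2
      have e4 : (s 0).1 k 4 = (s 0).1 k 3 := h3 k 3
      have h6 := (s 0).2 k
      rw [Fin.sum_univ_five, e4, e3, e2, e1] at h6
      have h7 : 5 * (s 0).1 k 0 = 0 := by linear_combination h6
      exact (mul_eq_zero.1 h7).resolve_left h5
    apply Subtype.ext
    funext k i
    have e1 : (s 0).1 k 1 = (s 0).1 k 0 := h3 k 0
    have e2 : (s 0).1 k 2 = (s 0).1 k 1 := h3 k 1
    have e3 : (s 0).1 k 3 = (s 0).1 k 2 := h3 k 2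
    have e4 : (s 0).1 k 4 = (s 0).1 k 3 := h3 k 3
    change (s 0).1 k i = 0
    have hi : i = 0 ∨ i = 1 ∨ i = 2 ∨ i = 3 ∨ i = 4 := by
      fin_cases i <;> simp
    rcases hi with rfl | rfl | rfl | rfl | rfl
    · exact hk k
    · rw [e1, hk]
    · rw [e2, e1, hk]
    · rw [e3, e2, e1, hk]
    · rw [e4, e3, e2, e1, hk]
  apply Equiv.ext
  intro t
  rw [h1, h0, add_zero]
  rfl

end Pool.Agent.N499.CG
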